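import Pool.Agent.N658.FF.Stm

/-! # Project FF (helper658), job Tree (helper488): the main lemma -/

open scoped BigOperators InnerProductSpace Classical

noncomputable section

namespace Pool.Agent.N488.FF

open Pool.Agent.N658.FF

section base

variable {E : Type} [NormedAddCommGroup E] [InnerProductSpace ℂ E] [FiniteDimensional ℂ E]
variable {T : Type}

omit [FiniteDimensional ℂ E] in
theorem mem_G {V : T → Submodule ℂ E} {A : Finset T} {w : E} :
    w ∈ G V A ↔ ∀ x ∈ A, w ∈ V x := by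
  unfold G
  simp only [Submodule.mem_iInf]

omit [FiniteDimensional ℂ E] in
theorem G_anti {V : T → Submodule ℂ E} {A B : Finset T} (h : A ⊆ B) : G V B ≤ G V A :=
  fun _ hw => mem_G.2 fun x hx => mem_G.1 hw x (h hx)

theorem pr_self {K : Submodule ℂ E} {v : E} (hv : v ∈ K) : pr K v = v :=
  Submodule.starProjection_eq_self_iff.2 hv

theorem pr_mem (K : Submodule ℂ E) (v : E) : pr K v ∈ K := Submodule.starProjection_apply_mem K v

theorem pr_le (K : Submodule ℂ E) (v : E) : ‖pr K v‖ ≤ ‖v‖ :=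
  Submodule.norm_starProjection_apply_le K v

theorem inner_sub_pr (K : Submodule ℂ E) (v w : E) (hw : w ∈ K) : ⟪w, v - pr K v⟫_ℂ = 0 :=
  (Submodule.mem_orthogonal _ _).1 (Submodule.sub_starProjection_mem_orthogonal v) w hw

theorem inner_pr (K : Submodule ℂ E) (v w : E) (hw : w ∈ K) : ⟪w, v⟫_ℂ = ⟪w, pr K v⟫_ℂ := by
  have h := inner_sub_pr K v w hw
  rw [inner_sub_right, sub_eq_zero] at h
  exact h

theorem K_mem {V : T → Submodule ℂ E} {K : E →L[ℂ] E} {A : Finset T}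
    (h : ∀ y ∈ A, Commute K (pr (V y))) {w : E} (hw : w ∈ G V A) : K w ∈ G V A := by
  rw [mem_G] at hw ⊢
  intro y hy
  have h1 : pr (V y) (K w) = K (pr (V y) w) := by
    have h2 := congrArg (fun L : E →L[ℂ] E => L w) (h y hy).eq
    exact h2.symm
  rw [pr_self (hw y hy)] at h1
  exact Submodule.starProjection_eq_self_iff.1 h1

theorem K_comm {V : T → Submodule ℂ E} {K : E →L[ℂ] E} {A : Finset T}
    (hs : ∀ a b : E, ⟪K a, b⟫_ℂ = ⟪a, K b⟫_ℂ)
    (h : ∀ y ∈ A, Commute K (pr (V y))) (v : E) : pr (G V A) (K v) = K (pr (G V A) v) := by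
  refine Submodule.eq_starProjection_of_mem_orthogonal (K_mem h (pr_mem _ _)) ?_
  rw [← map_sub, Submodule.mem_orthogonal]
  intro w hw
  rw [← hs]
  exact inner_sub_pr _ _ _ (K_mem h hw)

omit [FiniteDimensional ℂ E] in
/-- `‖a + b‖² = ‖a‖² + ‖b‖² + 2 re ⟨a, b⟩` -/
theorem norm_add_sq' (a b : E) :
    ‖a + b‖ ^ 2 = ‖a‖ ^ 2 + ‖b‖ ^ 2 + 2 * (⟪a, b⟫_ℂ).re := by
  have := @norm_add_sq ℂ E _ _ _ a b
  rw [this]
  simp only [RCLike.re_to_complex]
  ring

theorem pyth (W : Submodule ℂ E) (u : E) : ‖u‖ ^ 2 = ‖pr W u‖ ^ 2 + ‖u - pr W u‖ ^ 2 := by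
  have h := norm_add_sq' (pr W u) (u - pr W u)
  rw [inner_sub_pr W u _ (pr_mem W u)] at h
  rw [add_sub_cancel] at h
  rw [h]
  simp

/-- a group far from the treated one -/
theorem far (W : Submodule ℂ E) (K : E →L[ℂ] E) (η : ℝ)
    (hs : ∀ a b : E, ⟪K a, b⟫_ℂ = ⟪a, K b⟫_ℂ) (hc : ∀ v, pr W (K v) = K (pr W v)) (u0 u1 : E)
    (h0 : K u0 = u0) (h1 : ‖K u1‖ ≤ η * ‖u1‖) (hη : 0 ≤ η) (ho : ⟪u0, u1⟫_ℂ = 0) :
    ‖u0 - pr W u0‖ ^ 2 + ‖u1 - pr W u1‖ ^ 2 - η * (‖u0‖ ^ 2 + ‖u1‖ ^ 2) ≤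
      ‖(u0 + u1) - pr W (u0 + u1)‖ ^ 2 := by
  have e1 : (u0 + u1) - pr W (u0 + u1) = (u0 - pr W u0) + (u1 - pr W u1) := by
    rw [map_add]; abel
  rw [e1, norm_add_sq']
  have e2 : ⟪u0 - pr W u0, u1 - pr W u1⟫_ℂ = -⟪u0, pr W u1⟫_ℂ := by
    rw [inner_sub_left, inner_sub_pr W u1 _ (pr_mem W u0), inner_sub_right, ho]
    ring
  have e3 : ⟪u0, pr W u1⟫_ℂ = ⟪u0, pr W (K u1)⟫_ℂ := by
    conv_lhs => rw [← h0]
    rw [hs, hc]
  have e4 : ‖⟪u0, pr W u1⟫_ℂ‖ ≤ η * (‖u0‖ * ‖u1‖) := by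
    rw [e3]
    refine (norm_inner_le_norm _ _).trans ?_
    have h2 := (pr_le W (K u1)).trans h1
    calc ‖u0‖ * ‖pr W (K u1)‖ ≤ ‖u0‖ * (η * ‖u1‖) := by gcongr
      _ = _ := by ring
  have e5 : (⟪u0, pr W u1⟫_ℂ).re ≤ η * (‖u0‖ * ‖u1‖) := (Complex.re_le_norm _).trans e4
  rw [e2, Complex.neg_re]
  have e6 : 2 * (‖u0‖ * ‖u1‖) ≤ ‖u0‖ ^ 2 + ‖u1‖ ^ 2 := by nlinarith [sq_nonneg (‖u0‖ - ‖u1‖)]
  have e7 : η * (2 * (‖u0‖ * ‖u1‖)) ≤ η * (‖u0‖ ^ 2 + ‖u1‖ ^ 2) :=
    mul_le_mul_of_nonneg_left e6 hη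
  linarith

/-- a group near the treated one -/
theorem near' (W : Submodule ℂ E) (u0 u1 : E) :
    ‖u0 - pr W u0‖ ^ 2 / 2 - ‖u1 - pr W u1‖ ^ 2 ≤ ‖(u0 + u1) - pr W (u0 + u1)‖ ^ 2 := by
  have e1 : u0 - pr W u0 = ((u0 + u1) - pr W (u0 + u1)) - (u1 - pr W u1) := by
    rw [map_add]; abel
  have h := norm_sub_le ((u0 + u1) - pr W (u0 + u1)) (u1 - pr W u1)
  rw [← e1] at h
  have h1 := norm_nonneg (u0 - pr W u0)
  nlinarith [norm_nonneg ((u0 + u1) - pr W (u0 + u1)), norm_nonneg (u1 - pr W u1),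
    sq_nonneg (‖(u0 + u1) - pr W (u0 + u1)‖ - ‖u1 - pr W u1‖)]

theorem sub_pr_le (W : Submodule ℂ E) (u : E) : ‖u - pr W u‖ ^ 2 ≤ ‖u‖ ^ 2 := by
  have := pyth W u
  nlinarith [sq_nonneg ‖pr W u‖]

/-- the comparison of the projections -/
theorem comp (W0 W1 W' Z : Submodule ℂ E) (K : E →L[ℂ] E) (η : ℝ) (hη0 : 0 ≤ η) (hη1 : η ≤ 1)
    (hs : ∀ a b : E, ⟪K a, b⟫_ℂ = ⟪a, K b⟫_ℂ)
    (hcon : ∀ a b : E, ‖K a + (b - K b)‖ ^ 2 ≤ ‖a‖ ^ 2 + ‖b‖ ^ 2) (u : E)
    (hap : ‖pr Z u - K u‖ ≤ η * ‖u‖) (m0 : ∀ w ∈ W0, K w ∈ W') (m1 : ∀ w ∈ W1, w ∈ W')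
    (m2 : ∀ w ∈ W1, K w ∈ W') :
    ‖pr W0 (pr Z u)‖ ^ 2 + ‖pr W1 (u - pr Z u)‖ ^ 2 ≤ ‖pr W' u‖ ^ 2 + 5 * η * ‖u‖ ^ 2 := by
  set w0 := pr W0 (pr Z u) with hw0
  set w1 := pr W1 (u - pr Z u) with hw1
  have i0 : ‖w0‖ ^ 2 = (⟪w0, pr Z u⟫_ℂ).re := by
    rw [inner_pr W0 _ w0 (pr_mem _ _), ← hw0, inner_self_eq_norm_sq_to_K]
    norm_cast
  have i1 : ‖w1‖ ^ 2 = (⟪w1, u - pr Z u⟫_ℂ).re := by
    rw [inner_pr W1 _ w1 (pr_mem _ _), ← hw1, inner_self_eq_norm_sq_to_K]
    norm_cast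
  set y := K w0 + (w1 - K w1) with hy
  have hyW : y ∈ W' := W'.add_mem (m0 _ (pr_mem _ _))
    (W'.sub_mem (m1 _ (pr_mem _ _)) (m2 _ (pr_mem _ _)))
  have hid : ⟪w0, pr Z u⟫_ℂ + ⟪w1, u - pr Z u⟫_ℂ = ⟪y, u⟫_ℂ + ⟪w0 - w1, pr Z u - K u⟫_ℂ := by
    rw [hy, inner_add_left, inner_sub_left, hs, hs]
    simp only [inner_sub_left, inner_sub_right]
    ring
  have hre := congrArg Complex.re hid
  rw [Complex.add_re, Complex.add_re, ← i0, ← i1] at hre
  have hy1 : (⟪y, u⟫_ℂ).re ≤ ‖y‖ * ‖pr W' u‖ := by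
    rw [inner_pr W' u y hyW]
    exact (Complex.re_le_norm _).trans (norm_inner_le_norm _ _)
  have hy2 : (⟪w0 - w1, pr Z u - K u⟫_ℂ).re ≤ ‖w0 - w1‖ * (η * ‖u‖) :=
    (Complex.re_le_norm _).trans ((norm_inner_le_norm _ _).trans (by gcongr))
  have hyn : ‖y‖ ^ 2 ≤ ‖w0‖ ^ 2 + ‖w1‖ ^ 2 := hcon w0 w1
  have hd : ‖w0 - w1‖ ^ 2 ≤ 2 * (‖w0‖ ^ 2 + ‖w1‖ ^ 2) := by
    have := norm_sub_le w0 w1
    nlinarith [norm_nonneg (w0 - w1), norm_nonneg w0, norm_nonneg w1, sq_nonneg (‖w0‖ - ‖w1‖)]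
  set s := Real.sqrt (‖w0‖ ^ 2 + ‖w1‖ ^ 2) with hsd
  have hs2 : s ^ 2 = ‖w0‖ ^ 2 + ‖w1‖ ^ 2 := Real.sq_sqrt (by positivity)
  have hs0 : 0 ≤ s := Real.sqrt_nonneg _
  have hys : ‖y‖ ≤ s := by
    apply le_of_sq_le_sq _ hs0
    rw [hs2]; exact hyn
  have hds : ‖w0 - w1‖ ≤ 1.42 * s := by
    apply le_of_sq_le_sq _ (by positivity)
    rw [mul_pow, hs2]
    nlinarith [sq_nonneg ‖w0‖, sq_nonneg ‖w1‖]
  have ha := pr_le W' u
  have ha0 := norm_nonneg (pr W' u)
  have hu0 := norm_nonneg u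
  have h1 : s ^ 2 ≤ s * (‖pr W' u‖ + 1.42 * η * ‖u‖) := by
    have e1 : ‖y‖ * ‖pr W' u‖ ≤ s * ‖pr W' u‖ := by gcongr
    have e2 : ‖w0 - w1‖ * (η * ‖u‖) ≤ 1.42 * s * (η * ‖u‖) := by gcongr
    rw [hs2]
    nlinarith
  have h2 : s ≤ ‖pr W' u‖ + 1.42 * η * ‖u‖ := by
    rcases hs0.eq_or_lt with h | h
    · rw [← h]; positivity
    · exact le_of_mul_le_mul_left (by rw [← sq]; exact h1) h
  have h3 : s ^ 2 ≤ (‖pr W' u‖ + 1.42 * η * ‖u‖) ^ 2 := by gcongr
  rw [hs2] at h3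
  have h4 : ‖pr W' u‖ * (η * ‖u‖) ≤ ‖u‖ * (η * ‖u‖) := by gcongr
  have h5 : η * η ≤ η := by nlinarith
  have h6 : η * η * ‖u‖ ^ 2 ≤ η * ‖u‖ ^ 2 := by gcongr
  nlinarith

end base

theorem hol_congr {T ι : Type} [DecidableEq T] [DecidableEq ι] (Nm Np : ι → Finset T)
    {F F' : Finset ι} (ts : List ι) (h : ∀ f ∈ ts, f ∈ F ↔ f ∈ F') :
    hol Nm Np F ts = hol Nm Np F' ts := by
  induction ts with
  | nil => rfl
  | cons t ts ih =>
    have h1 := ih fun f hf => h f (List.mem_cons_of_mem _ hf)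
    have h2 := h t List.mem_cons_self
    simp only [hol, h1, h2]

theorem sum_lin {ι : Type} (l : List ι) (f g h k : ι → ℝ) (c d : ℝ) :
    (l.map fun j => f j + g j - c * h j - d * k j).sum =
      (l.map f).sum + (l.map g).sum - c * (l.map h).sum - d * (l.map k).sum := by
  induction l with
  | nil => simp
  | cons a l ih =>
    simp only [List.map_cons, List.sum_cons, ih]
    ring

theorem tree : StmTree := by
  intro E _ _ _ T ι _ _ V X Nm Np near η γ hη0 hη1 hXN hK hA hD ts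
  induction ts with
  | nil =>
    intro _ b hb _ B n u hu
    rcases Nat.eq_zero_or_pos n with rfl | hn
    · simp
    · have h1 : u ∈ VV V X Nm Np [] B n := by
        refine Submodule.mem_iSup_of_mem ⟨∅, by simp, by simpa using hn⟩ ?_
        simpa [rest, hol] using hu
      rw [pr_self h1]
      simp
  | cons t ts ih =>
    intro hnd b hb hC B n u hu
    have htn : t ∉ ts := (List.nodup_cons.1 hnd).1
    have hnd' := (List.nodup_cons.1 hnd).2
    have hbs : ∀ l : List ι, 0 ≤ (l.map b).sum := fun l =>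
      List.sum_nonneg (by
        intro x hx
        obtain ⟨j, -, rfl⟩ := List.mem_map.1 hx
        exact hb j)
    rcases Nat.eq_zero_or_pos n with rfl | hn
    · have h1 : 0 ≤ ((t :: ts).map fun j => b j * ‖u - pr (G V (X j)) u‖ ^ 2).sum :=
        List.sum_nonneg (by
          intro x hx
          obtain ⟨j, -, rfl⟩ := List.mem_map.1 hx
          exact mul_nonneg (hb j) (sq_nonneg _))
      have h2 : 0 ≤ ((t :: ts).length : ℝ) * η * (5 * ((0 : ℕ) : ℝ) + 2 * ((t :: ts).map b).sum) *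
          ‖u‖ ^ 2 := by
        have := hbs (t :: ts)
        have h3 : (0 : ℝ) ≤ 5 * ((0 : ℕ) : ℝ) + 2 * ((t :: ts).map b).sum := by
          push_cast
          linarith
        positivity
      push_cast at h2 ⊢
      linarith
    obtain ⟨m, rfl⟩ : ∃ m, n = m + 1 := ⟨n - 1, by omega⟩
    obtain ⟨K, hI⟩ := hK B t
    set Z := G V (B ∪ X t) with hZ
    set u0 := pr Z u with hu0
    set u1 := u - u0 with hu1
    have hZB : Z ≤ G V B := G_anti Finset.subset_union_left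
    have hu0Z : u0 ∈ Z := pr_mem _ _
    have hu0B : u0 ∈ G V B := hZB hu0Z
    have hu1B : u1 ∈ G V B := (G V B).sub_mem hu hu0B
    have hu1o : u1 ∈ Zᗮ := Submodule.sub_starProjection_mem_orthogonal u
    have huu : u = u0 + u1 := by rw [hu1]; abel
    have ho : ⟪u0, u1⟫_ℂ = 0 := inner_sub_pr Z u u0 hu0Z
    have hpy : ‖u‖ ^ 2 = ‖u0‖ ^ 2 + ‖u1‖ ^ 2 := pyth Z u
    have hKu0 : K u0 = u0 := hI.fix (B ∪ X t) Finset.inter_subset_left u0 hu0Z
    have hKu1 : ‖K u1‖ ≤ η * ‖u1‖ := by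
      have h1 := hI.approx u1 hu1B
      have h2 : pr (G V (B ∪ X t)) u1 = 0 := (Submodule.starProjection_apply_eq_zero_iff _).2 hu1o
      rw [h2, zero_sub, norm_neg] at h1
      exact h1
    set b' : ι → ℝ := fun j => if near t j then b j / 2 else b j with hb'
    have hb'0 : ∀ j, 0 ≤ b' j := fun j => by
      rw [hb']
      dsimp only
      split_ifs
      · exact div_nonneg (hb j) (by norm_num)
      · exact hb j
    have hb'le : ∀ j, b' j ≤ b j := fun j => by
      rw [hb']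
      dsimp only
      split_ifs
      · have := hb j
        linarith
      · exact le_rfl
    obtain ⟨hC1, hC2⟩ : 1 + 3 / 2 * (ts.map fun j => if near t j then b j else 0).sum ≤ γ * b t ∧
      Cond near γ ts b' := hC
    -- the treated group
    have q1 : γ * ‖u1‖ ^ 2 ≤ ‖u - pr (G V (X t)) u‖ ^ 2 := by
      have h1 := hA B t u1 hu1B hu1o
      have h2 : pr (G V (X t)) u0 = u0 := pr_self (G_anti Finset.subset_union_right hu0Z)
      have h3 : u - pr (G V (X t)) u = u1 - pr (G V (X t)) u1 := by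
        conv_lhs => rw [huu, map_add, h2]
        abel
      rw [h3]
      exact h1
    -- the other groups
    have q2 : ∀ j ∈ ts, b' j * ‖u0 - pr (G V (X j)) u0‖ ^ 2 +
        b' j * ‖u1 - pr (G V (X j)) u1‖ ^ 2 -
        (3 / 2 * ‖u1‖ ^ 2) * (if near t j then b j else 0) - (η * ‖u‖ ^ 2) * b j ≤
        b j * ‖u - pr (G V (X j)) u‖ ^ 2 := by
      intro j hj
      have hjt : t ≠ j := by
        rintro rfl
        exact htn hj
      have hbj := hb j
      have hη2 : 0 ≤ (η * ‖u‖ ^ 2) * b j := by positivity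
      by_cases hnear : near t j
      · have h1 := near' (G V (X j)) u0 u1
        rw [← huu] at h1
        have h2 := mul_le_mul_of_nonneg_left h1 hbj
        have h3 := mul_le_mul_of_nonneg_left (sub_pr_le (G V (X j)) u1) hbj
        rw [hb']
        simp only [if_pos hnear]
        nlinarith
      · have h1 := far (G V (X j)) K η hI.symm (K_comm hI.symm fun y hy => hI.comm y fun hy' =>
          (Finset.disjoint_left.1 (hD t j hjt hnear) hy) hy') u0 u1 hKu0 hKu1 hη0 ho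
        rw [← huu, ← hpy] at h1
        have h2 := mul_le_mul_of_nonneg_left h1 hbj
        rw [hb']
        simp only [if_neg hnear]
        nlinarith
    have q3 : (ts.map fun j => b' j * ‖u0 - pr (G V (X j)) u0‖ ^ 2).sum +
        (ts.map fun j => b' j * ‖u1 - pr (G V (X j)) u1‖ ^ 2).sum -
        (3 / 2 * ‖u1‖ ^ 2) * (ts.map fun j => if near t j then b j else 0).sum -
        (η * ‖u‖ ^ 2) * (ts.map b).sum ≤
        (ts.map fun j => b j * ‖u - pr (G V (X j)) u‖ ^ 2).sum := by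
      rw [← sum_lin]
      exact List.sum_le_sum q2
    -- the induction hypotheses
    have i0 := ih hnd' b' hb'0 hC2 (B ∪ X t) (m + 1) u0 hu0Z
    have i1 := ih hnd' b' hb'0 hC2 B m u1 hu1B
    -- the spaces
    have hrest : B ∪ rest X (t :: ts) = (B ∪ X t) ∪ rest X ts := by
      simp only [rest, Finset.union_assoc]
    have m0 : ∀ w ∈ VV V X Nm Np ts (B ∪ X t) (m + 1), K w ∈ VV V X Nm Np (t :: ts) B (m + 1) := by
      have h1 : VV V X Nm Np ts (B ∪ X t) (m + 1) ≤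
          (VV V X Nm Np (t :: ts) B (m + 1)).comap (K : E →ₗ[ℂ] E) := by
        refine iSup_le fun F => ?_
        intro w hw
        rw [Submodule.mem_comap]
        show K w ∈ _
        have htF : t ∉ F.1 := fun h => htn (F.2.1 t h)
        refine Submodule.mem_iSup_of_mem
          ⟨F.1, fun f hf => List.mem_cons_of_mem _ (F.2.1 f hf), F.2.2⟩ ?_
        rw [hrest]
        by_cases hdis : Disjoint (Nm t) (hol Nm Np F.1 ts)
        · have e1 : hol Nm Np F.1 (t :: ts) = hol Nm Np F.1 ts := by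
            simp only [hol]
            rw [if_neg]
            push Not
            exact ⟨htF, hdis⟩
          have e2 : K w = w := by
            refine hI.fix _ ?_ w hw
            intro x hx
            rw [Finset.mem_inter] at hx
            rw [Finset.mem_sdiff]
            exact ⟨Finset.mem_union_left _ hx.1, Finset.disjoint_left.1 hdis hx.2⟩
          rw [e2, e1]
          exact hw
        · have e1 : hol Nm Np F.1 (t :: ts) = hol Nm Np F.1 ts ∪ Np t := by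
            simp only [hol]
            rw [if_pos (Or.inr hdis)]
          rw [e1]
          refine K_mem (fun y hy => hI.comm y ?_) (G_anti ?_ hw)
          · rw [Finset.mem_sdiff] at hy
            exact fun h => hy.2 (Finset.mem_union_right _ h)
          · exact Finset.sdiff_subset_sdiff le_rfl Finset.subset_union_left
      exact fun w hw => h1 hw
    have m12 : ∀ w ∈ VV V X Nm Np ts B m, w ∈ VV V X Nm Np (t :: ts) B (m + 1) ∧
        K w ∈ VV V X Nm Np (t :: ts) B (m + 1) := by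
      have h1 : VV V X Nm Np ts B m ≤ VV V X Nm Np (t :: ts) B (m + 1) ⊓
          (VV V X Nm Np (t :: ts) B (m + 1)).comap (K : E →ₗ[ℂ] E) := by
        refine iSup_le fun F => ?_
        intro w hw
        have htF : t ∉ F.1 := fun h => htn (F.2.1 t h)
        have hF' : (∀ f ∈ insert t F.1, f ∈ t :: ts) ∧ (insert t F.1).card < m + 1 := by
          constructor
          · intro f hf
            rcases Finset.mem_insert.1 hf with rfl | hf
            · exact List.mem_cons_self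
            · exact List.mem_cons_of_mem _ (F.2.1 f hf)
          · rw [Finset.card_insert_of_notMem htF]
            have := F.2.2
            omega
        have e1 : hol Nm Np (insert t F.1) (t :: ts) = hol Nm Np F.1 ts ∪ Np t := by
          have e2 : hol Nm Np (insert t F.1) ts = hol Nm Np F.1 ts :=
            hol_congr Nm Np ts fun f hf => by
              rw [Finset.mem_insert]
              constructor
              · rintro (rfl | h)
                · exact absurd hf htn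
                · exact h
              · exact Or.inr
          simp only [hol]
          rw [if_pos (Or.inl (Finset.mem_insert_self _ _)), e2]
        have e3 : (B ∪ rest X (t :: ts)) \ hol Nm Np (insert t F.1) (t :: ts) ⊆
            (B ∪ rest X ts) \ hol Nm Np F.1 ts := by
          rw [e1, hrest]
          intro x hx
          simp only [Finset.mem_sdiff, Finset.mem_union, not_or] at hx ⊢
          refine ⟨?_, hx.2.1⟩
          rcases hx.1 with (h | h) | h
          · exact Or.inl h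
          · exact absurd (hXN t h) hx.2.2
          · exact Or.inr h
        have hw' := G_anti (V := V) e3 hw
        refine ⟨Submodule.mem_iSup_of_mem ⟨insert t F.1, hF'⟩ hw', ?_⟩
        show K w ∈ VV V X Nm Np (t :: ts) B (m + 1)
        refine Submodule.mem_iSup_of_mem ⟨insert t F.1, hF'⟩ (K_mem (fun y hy => hI.comm y ?_) hw')
        rw [e1, Finset.mem_sdiff] at hy
        exact fun h => hy.2 (Finset.mem_union_right _ h)
      exact fun w hw => h1 hw
    have q5 := comp (VV V X Nm Np ts (B ∪ X t) (m + 1)) (VV V X Nm Np ts B m)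
      (VV V X Nm Np (t :: ts) B (m + 1)) Z K η hη0 hη1 hI.symm hI.contr u (hI.approx u hu) m0
      (fun w hw => (m12 w hw).1) (fun w hw => (m12 w hw).2)
    rw [← hu0, ← hu1] at q5
    -- the sums
    have hbb : (ts.map b').sum ≤ (ts.map b).sum := List.sum_le_sum fun j _ => hb'le j
    have hbt := hb t
    have hbts := hbs ts
    have hb's : 0 ≤ (ts.map b').sum := List.sum_nonneg (by
      intro x hx
      obtain ⟨j, -, rfl⟩ := List.mem_map.1 hx
      exact hb'0 j)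
    simp only [List.map_cons, List.sum_cons, List.length_cons]
    push_cast at i0 i1 ⊢
    set L : ℝ := (ts.length : ℝ) with hL
    have hL0 : 0 ≤ L := Nat.cast_nonneg _
    set Sb := (ts.map b).sum with hSb
    set Sb' := (ts.map b').sum with hSb'
    set S0 := (ts.map fun j => b' j * ‖u0 - pr (G V (X j)) u0‖ ^ 2).sum with hS0
    set S1 := (ts.map fun j => b' j * ‖u1 - pr (G V (X j)) u1‖ ^ 2).sum with hS1
    set Sn := (ts.map fun j => if near t j then b j else 0).sum with hSn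
    set SS := (ts.map fun j => b j * ‖u - pr (G V (X j)) u‖ ^ 2).sum with hSS
    set a0 := ‖pr (VV V X Nm Np ts (B ∪ X t) (m + 1)) u0‖ ^ 2 with ha0
    set a1 := ‖pr (VV V X Nm Np ts B m) u1‖ ^ 2 with ha1
    set a2 := ‖pr (VV V X Nm Np (t :: ts) B (m + 1)) u‖ ^ 2 with ha2
    set U := ‖u‖ ^ 2 with hU
    set U0 := ‖u0‖ ^ 2 with hU0
    set U1 := ‖u1‖ ^ 2 with hU1
    set qt := ‖u - pr (G V (X t)) u‖ ^ 2 with hqt
    have hU1n : 0 ≤ U1 := sq_nonneg _
    have hU0n : 0 ≤ U0 := sq_nonneg _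
    have hUn : 0 ≤ U := sq_nonneg _
    have ha1n : 0 ≤ a1 := sq_nonneg _
    have hm : (0 : ℝ) ≤ m := Nat.cast_nonneg _
    -- step 1
    have r1 : (1 + 3 / 2 * Sn) * U1 ≤ b t * qt := by
      have h1 := mul_le_mul_of_nonneg_right hC1 hU1n
      have h2 := mul_le_mul_of_nonneg_left q1 hbt
      nlinarith
    have r2 : U1 + S0 + S1 - η * U * Sb ≤ b t * qt + SS := by nlinarith
    -- the induction hypotheses
    have r3 : (m + 1) * (U - a0 - a1) - L * η * (5 * (m + 1) + 2 * Sb') * U ≤ U1 + S0 + S1 := by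
      have h1 : 0 ≤ L * η * 5 * U1 := by positivity
      rw [hpy]
      nlinarith
    have r4 : (m + 1) * (U - a2) - (m + 1) * (5 * η * U) ≤ (m + 1) * (U - a0 - a1) := by
      have h1 : (m + 1) * (a0 + a1) ≤ (m + 1) * (a2 + 5 * η * U) :=
        mul_le_mul_of_nonneg_left q5 (by linarith)
      nlinarith
    have r5 : L * η * (5 * (m + 1) + 2 * Sb') * U ≤ L * η * (5 * (m + 1) + 2 * (b t + Sb)) * U := by
      have h1 : 5 * ((m : ℝ) + 1) + 2 * Sb' ≤ 5 * (m + 1) + 2 * (b t + Sb) := by linarith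
      gcongr
    have r6 : (m + 1) * (5 * η * U) + η * U * Sb ≤
        η * (5 * (m + 1) + 2 * (b t + Sb)) * U := by
      have h1 : 0 ≤ η * U * Sb := by positivity
      have h2 : 0 ≤ η * U * b t := by positivity
      nlinarith
    nlinarith

end Pool.Agent.N488.FF
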